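import Pool.Agent.N835.LF.Rich

/-!
Project LF (helper328): one vertex on every odd circuit, pairwise far apart (helper835; after
`Pool.Agent.H185E.exists_select'`).
-/

set_option autoImplicit false
set_option linter.unusedSectionVars false

namespace Pool.Agent.N835.LF
open Finset Pool.Agent.H160R2.HF Pool.Agent.H160R2.HF.OrGraph Pool.Agent.H884R2.HFP
open Pool.Agent.H185C Pool.Agent.H185D

variable {V E : Type} [Fintype V] [Fintype E] [DecidableEq V] [DecidableEq E]

/-- Haxell's theorem for sets of vertices -/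
theorem haxell_far (G : OrGraph V E) (hc : G.Cubic) (D : ℕ) {ι : Type} [Fintype ι]
    (A : ι → Finset V) (hdis : ∀ i j, i ≠ j → Disjoint (A i) (A j))
    (hA : ∀ i, 3 * 4 ^ D ≤ (A i).card) :
    ∃ s : ι → V, (∀ i, s i ∈ A i) ∧ ∀ i j, i ≠ j → ¬ Near G D (s i) (s j) := by
  classical
  by_cases hne : Nonempty ι
  swap
  · exact ⟨fun i => (hne ⟨i⟩).elim, fun i => (hne ⟨i⟩).elim, fun i => (hne ⟨i⟩).elim⟩
  have hAne : ∀ i, ∃ v, v ∈ A i := fun i => by
    have h1 : 0 < (A i).card := lt_of_lt_of_le (by positivity) (hA i)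
    exact card_pos.1 h1
  choose s0 hs0 using hAne
  have : Nonempty V := ⟨s0 (Classical.choice hne)⟩
  set φ : ι × V → V := fun z => if z.2 ∈ A z.1 then z.2 else s0 z.1 with hφ
  have hφc : ∀ z, φ z ∈ A z.1 := by
    intro z
    simp only [hφ]
    split_ifs with h
    · exact h
    · exact hs0 _
  set adj : ι × V → ι × V → Prop :=
    fun z z' => z.1 ≠ z'.1 ∧ Near G D (φ z) (φ z') with hadj
  have hsymm : ∀ a b, adj a b → adj b a := fun a b h =>
    ⟨fun e => h.1 e.symm, near_symm G D _ _ h.2⟩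
  obtain ⟨f, hf⟩ := Pool.Agent.H931R2.Haxell.finite (adj := adj) hsymm (by
    intro K hK Z hZ
    by_contra hcon
    push Not at hcon
    have hAcard : K.card * (3 * 4 ^ D) ≤ (K.biUnion A).card := by
      rw [Finset.card_biUnion fun i _ j _ hij => hdis i j hij, ← smul_eq_mul]
      exact Finset.card_nsmul_le_sum _ _ _ fun c _ => hA c
    have hsub : K.biUnion A ⊆ Z.biUnion (fun z => univ.filter (fun v => Near G D (φ z) v)) := by
      intro v hv
      obtain ⟨c, hcK, hvc⟩ := Finset.mem_biUnion.1 hv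
      obtain ⟨z, hz, hyz⟩ := hcon c hcK v
      refine Finset.mem_biUnion.2 ⟨z, hz, Finset.mem_filter.2 ⟨Finset.mem_univ _, ?_⟩⟩
      have h2 : φ (c, v) = v := by simp only [hφ, hvc, if_true]
      have h3 := hyz.2
      rw [h2] at h3
      exact near_symm G D _ _ h3
    have h1 := Finset.card_le_card hsub
    have h2 : (Z.biUnion (fun z => univ.filter (fun v => Near G D (φ z) v))).card ≤
        Z.card * 4 ^ D :=
      Finset.card_biUnion_le_card_mul _ _ _ fun z _ => near_card G hc D (φ z) _ (fun v hv =>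
        (Finset.mem_filter.1 hv).2)
    have h3 := hK.card_pos
    have h4 := hAcard.trans (h1.trans h2)
    have h5 : 0 < 4 ^ D := by positivity
    have h7 : K.card * 3 * 4 ^ D ≤ Z.card * 4 ^ D := by
      calc K.card * 3 * 4 ^ D = K.card * (3 * 4 ^ D) := by ring
        _ ≤ _ := h4
    have h8 := Nat.le_of_mul_le_mul_right h7 h5
    omega) (univ : Finset ι)
  refine ⟨fun c => φ (c, f c), fun c => hφc _, ?_⟩
  intro c c' hne' hnear
  exact hf c (Finset.mem_univ _) c' (Finset.mem_univ _) hne' ⟨hne', hnear⟩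

/-- one vertex on every odd circuit, pairwise far apart -/
theorem select (G : OrGraph V E) (hc : G.Cubic) (D k : ℕ)
    (hk : 3 * 4 ^ (D + 1) + 2 * D + 2 ≤ k)
    (hsmall : ∀ X : Finset V, X.card ≤ k → X.card ≤ (G.cut X).card + 1) (F : Finset E)
    (π : Equiv.Perm V) (ε : V → E) (hπ : IsPerm G F π ε) :
    ∃ s : OddCyc π → V, (∀ c, cls π (s c) = c.1) ∧
      ∀ c c', c ≠ c' → ¬ Near G D (s c) (s c') := by
  classical
  obtain ⟨L, hL⟩ : ∃ L, L = 4 ^ (D + 1) := ⟨_, rfl⟩
  rw [← hL] at hk
  have hL4 : L = 4 * 4 ^ D := by rw [hL]; ring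
  let _ := Fintype.ofFinite (OddCyc π)
  have hrep : ∀ c : OddCyc π, ∃ v, cls π v = c.1 := fun c => Quotient.exists_rep c.1
  choose s0 hs0 using hrep
  have hs0m : ∀ c : OddCyc π, s0 c ∈ vert π {c.1} := fun c => (mem_vert π _ _).2 (hs0 c)
  have hne0 : ∀ c c' : OddCyc π, c ≠ c' → cls π (s0 c) ≠ cls π (s0 c') := by
    intro c c' h h'
    rw [hs0, hs0] at h'
    exact h (Subtype.ext h')
  -- two short circuits
  have hSS : ∀ c c' : OddCyc π, c ≠ c' → csize π c.1 < L → csize π c'.1 < L →
      ¬ Near G D (s0 c) (s0 c') := by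
    intro c c' hne h1 h2 hnear
    obtain ⟨P, hP1, hP2, hP3, hP4⟩ := near_conn G D _ _ hnear
    have hZ1 := conn_union G (conn_vert G F π ε hπ c.1) hP3 (hs0m c) hP1
    have hZ2 := conn_union G hZ1 (conn_vert G F π ε hπ c'.1) (mem_union_right _ hP2) (hs0m c')
    refine no_two G hc k hsmall F π ε hπ hZ2 ?_ (hne0 c c' hne) ?_ ?_
    · have h3 := card_union_le (vert π {c.1} ∪ P) (vert π {c'.1})
      have h4 := card_union_le (vert π {c.1}) P
      unfold csize at h1 h2
      omega
    · rw [hs0]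
      exact subset_union_left.trans subset_union_left
    · rw [hs0]
      exact subset_union_right
  -- a small connected set is near to at most one short circuit
  have hI : ∀ I : Finset V, Conn G I → I.card ≤ L → ∀ c c' : OddCyc π, c ≠ c' →
      csize π c.1 < L → csize π c'.1 < L → ∀ v ∈ I, ∀ v' ∈ I, Near G D (s0 c) v →
      Near G D (s0 c') v' → False := by
    intro I hIc hIL c c' hne h1 h2 v hv v' hv' hn hn'
    obtain ⟨P, hP1, hP2, hP3, hP4⟩ := near_conn G D _ _ hn
    obtain ⟨P', hP1', hP2', hP3', hP4'⟩ := near_conn G D _ _ hn'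
    have hZ1 := conn_union G hIc hP3 hv hP2
    have hZ2 := conn_union G hZ1 (conn_vert G F π ε hπ c.1) (mem_union_right _ hP1) (hs0m c)
    have hZ3 := conn_union G hZ2 hP3' (z := v')
      (mem_union_left _ (mem_union_left _ hv')) hP2'
    have hZ4 := conn_union G hZ3 (conn_vert G F π ε hπ c'.1) (mem_union_right _ hP1') (hs0m c')
    refine no_two G hc k hsmall F π ε hπ hZ4 ?_ (hne0 c c' hne) ?_ ?_
    · have h3 := card_union_le (I ∪ P ∪ vert π {c.1} ∪ P') (vert π {c'.1})
      have h4 := card_union_le (I ∪ P ∪ vert π {c.1}) P'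
      have h5 := card_union_le (I ∪ P) (vert π {c.1})
      have h6 := card_union_le I P
      unfold csize at h1 h2
      omega
    · rw [hs0]
      exact (subset_union_right.trans subset_union_left).trans subset_union_left
    · rw [hs0]
      exact subset_union_right
  -- the admissible vertices of a long circuit
  have hadm : ∀ c : {c : OddCyc π // L ≤ csize π c.1}, ∃ A : Finset V, A ⊆ vert π {c.1.1} ∧
      3 * 4 ^ D ≤ A.card ∧ ∀ v ∈ A, ∀ c' : OddCyc π, csize π c'.1 < L →
        ¬ Near G D (s0 c') v := by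
    intro c
    obtain ⟨I, hI1, hI2, hI3⟩ := conn_sub G (conn_vert G F π ε hπ c.1.1) L c.2
    by_cases h : ∃ c' : OddCyc π, csize π c'.1 < L ∧ ∃ v ∈ I, Near G D (s0 c') v
    · obtain ⟨c', hc', v', hv', hn'⟩ := h
      refine ⟨I.filter (fun v => ¬ Near G D (s0 c') v), (filter_subset _ _).trans hI1, ?_, ?_⟩
      · have h1 := card_filter_add_card_filter_not (s := I) (fun v => Near G D (s0 c') v)
        have h2 := near_card G hc D (s0 c') (I.filter (fun v => Near G D (s0 c') v))
          fun v hv => (mem_filter.1 hv).2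
        omega
      · intro v hv c'' hc'' hn
        rw [mem_filter] at hv
        by_cases hcc : c'' = c'
        · subst hcc
          exact hv.2 hn
        · exact hI I hI3 hI2.le c'' c' hcc hc'' hc' v hv.1 v' hv' hn hn'
    · push Not at h
      exact ⟨I, hI1, by omega, fun v hv c' hc' => h c' hc' v hv⟩
  choose A hA1 hA2 hA3 using hadm
  obtain ⟨t, ht1, ht2⟩ := haxell_far G hc D A (fun i j hij =>
    (vert_disj π fun h => hij (Subtype.ext (Subtype.ext h))).mono (hA1 i) (hA1 j)) hA2
  refine ⟨fun c => if h : L ≤ csize π c.1 then t ⟨c, h⟩ else s0 c, fun c => ?_, ?_⟩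
  · by_cases h : L ≤ csize π c.1
    · simp only [dif_pos h]
      exact (mem_vert π c.1 (t ⟨c, h⟩)).1 (hA1 ⟨c, h⟩ (ht1 ⟨c, h⟩))
    · simp only [dif_neg h]
      exact hs0 c
  · intro c c' hne
    by_cases h : L ≤ csize π c.1
    · by_cases h' : L ≤ csize π c'.1
      · simp only [dif_pos h, dif_pos h']
        exact ht2 ⟨c, h⟩ ⟨c', h'⟩ fun e => hne (congrArg Subtype.val e)
      · simp only [dif_pos h, dif_neg h']
        intro hn
        exact hA3 ⟨c, h⟩ (t ⟨c, h⟩) (ht1 ⟨c, h⟩) c' (not_le.1 h') (near_symm G D _ _ hn)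
    · by_cases h' : L ≤ csize π c'.1
      · simp only [dif_neg h, dif_pos h']
        exact hA3 ⟨c', h'⟩ (t ⟨c', h'⟩) (ht1 ⟨c', h'⟩) c (not_le.1 h)
      · simp only [dif_neg h, dif_neg h']
        exact hSS c c' hne (not_le.1 h) (not_le.1 h')

end Pool.Agent.N835.LF
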