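import Pool.Agent.N328.LF.Defs
import Pool.Agent.N835.LF.Sel

/-!
Project LF (helper328): `1/2`-flow-pairs in cubic expanders without small sets spanning two circuits
(helper835; after `Pool.Agent.H185E.expander`).
-/

set_option autoImplicit false
set_option linter.unusedSectionVars false

namespace Pool.Agent.N835.LF
open Finset Pool.Agent.H160R2.HF Pool.Agent.H160R2.HF.OrGraph Pool.Agent.H884R2.HFP
open Pool.Agent.H185C Pool.Agent.H185D Pool.Agent.H185E

/-- cubic expanders without small sets spanning two circuits -/
theorem det (q : ℕ) (V E : Type) [Fintype V] [Fintype E] [DecidableEq V] [DecidableEq E]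
    (G : OrGraph V E) (hc : G.Cubic)
    (hexp : ∀ X : Finset V, 2 * X.card ≤ Fintype.card V → X.card ≤ q * (G.cut X).card)
    (hsmall : ∀ X : Finset V, X.card ≤ 4 ^ (10 * q + 5) → X.card ≤ (G.cut X).card + 1)
    (F : Finset E) (hF : G.IsTwoFactor F)
    (h5 : ∀ X : Finset V, G.cut X ∩ F = ∅ → Odd X.card → 5 ≤ X.card) :
    ∃ φ₂ φ₄ : E → ℤ, G.IsHalfFlowPair φ₂ φ₄ ∧ ∀ e, φ₂ e ≠ 0 ↔ e ∈ F := by
  classical
  obtain ⟨π, ε, hπ⟩ := exists_perm G F hF
  let _ := Fintype.ofFinite (OddCyc π)
  have hL' : ∀ c : OddCyc π, 5 ≤ csize π c.1 := fun c => h5 _ (vert_cutF G F π ε hπ _) c.2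
  obtain ⟨s, hs1, hs2⟩ := select G hc (10 * q + 2) (4 ^ (10 * q + 5)) (by
    have e1 : 4 ^ (10 * q + 5) = 16 * 4 ^ (10 * q + 3) := by
      rw [show 10 * q + 5 = (10 * q + 3) + 2 by ring, pow_add]; ring
    have e2 : 10 * q + 3 < 4 ^ (10 * q + 3) := Nat.lt_pow_self (by norm_num)
    rw [show 10 * q + 2 + 1 = 10 * q + 3 by ring, e1]
    omega) hsmall F π ε hπ
  have hsinj : Function.Injective s := by
    intro c c' h
    exact Subtype.ext (by rw [← hs1, ← hs1, h])
  have hcutne : ∀ X : Finset V, X.Nonempty → Xᶜ.Nonempty → (G.cut X).Nonempty := by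
    intro X h1 h2
    rw [← Finset.card_pos]
    by_cases h : 2 * X.card ≤ Fintype.card V
    · have h3 := hexp X h
      have h4 := h1.card_pos
      by_contra hcon
      have h5 : (G.cut X).card = 0 := by omega
      rw [h5] at h3
      omega
    · have h6 := Finset.card_compl X
      have h3 := hexp Xᶜ (by omega)
      rw [cut_compl] at h3
      have h4 := h2.card_pos
      by_contra hcon
      have h5 : (G.cut X).card = 0 := by omega
      rw [h5] at h3
      omega
  set P : Finset V := univ.image s with hPdef
  have hPmem : ∀ v, v ∈ P ↔ ∃ c, s c = v := by intro v; simp [hPdef]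
  have hcs : ∀ v, csize π (cls π v) = (univ.filter (fun w => π.SameCycle v w)).card := by
    intro v
    unfold csize vert
    congr 1
    ext w
    simp only [Finset.mem_filter, Finset.mem_univ, true_and, Finset.mem_singleton]
    rw [cls_eq]
    exact ⟨fun h => h.symm, fun h => h.symm⟩
  have hP : ∀ v ∈ P, π v ∉ P := by
    intro v hv hv'
    obtain ⟨c, rfl⟩ := (hPmem _).1 hv
    obtain ⟨c', h1⟩ := (hPmem _).1 hv'
    have h2 : c' = c := by
      apply Subtype.ext
      rw [← hs1, ← hs1, h1, cls_apply]
    subst h2
    have h3 : csize π c'.1 ≤ 1 := by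
      rw [← hs1 c', hcs]
      apply Finset.card_le_one.2
      intro a ha b hb
      simp only [Finset.mem_filter, Finset.mem_univ, true_and] at ha hb
      have key : ∀ w, π.SameCycle (s c') w → w = s c' := by
        intro w hw
        obtain ⟨i, _, hi⟩ := hw.exists_pow_eq'
        rw [← hi]
        have : ∀ m : ℕ, (π ^ m) (s c') = s c' := by
          intro m
          induction m with
          | zero => simp
          | succ m ih => rw [pow_succ', Equiv.Perm.mul_apply, ih, ← h1]
        exact this i
      rw [key a ha, key b hb]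
    have h4 := hL' c'
    omega
  have hev : ∀ v, Even ((univ.filter (fun w => π.SameCycle v w)).card +
      (P.filter (fun w => π.SameCycle v w)).card) := by
    intro v
    rw [← hcs]
    by_cases hov : Odd (csize π (cls π v))
    · have h1 : P.filter (fun w => π.SameCycle v w) = {s ⟨cls π v, hov⟩} := by
        ext w
        rw [Finset.mem_filter, hPmem, Finset.mem_singleton]
        constructor
        · rintro ⟨⟨c, rfl⟩, h2⟩
          have h3 : c = ⟨cls π v, hov⟩ := by
            apply Subtype.ext
            rw [← hs1 c]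
            exact ((cls_eq π _ _).2 h2).symm
          rw [h3]
        · intro h2
          refine ⟨⟨_, h2.symm⟩, ?_⟩
          rw [← cls_eq, h2, hs1]
      rw [h1, Finset.card_singleton]
      exact hov.add_one
    · have h1 : P.filter (fun w => π.SameCycle v w) = ∅ := by
        apply Finset.filter_eq_empty_iff.2
        intro w hw h2
        obtain ⟨c, rfl⟩ := (hPmem _).1 hw
        apply hov
        rw [(cls_eq π _ _).2 h2, hs1]
        exact c.2
      rw [h1, Finset.card_empty, add_zero]
      exact Nat.not_odd_iff_even.1 hov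
  obtain ⟨B, br, hBF, hbr, hdeg⟩ := exists_breaks G F π ε hπ P hP hev
  have hstep : ∀ v, Near G 1 v (π v) := by
    intro v
    right
    refine ⟨ε v, ?_⟩
    rcases hπ.2.2.2 v with ⟨h3, h4⟩ | ⟨h3, h4⟩
    · left; exact ⟨h3.symm, h4⟩
    · right; exact ⟨h4.symm, h3⟩
  set U : Finset V := P.image br with hU
  have hbrc : ∀ c, cls π (br (s c)) = c.1 := by
    intro c
    rcases hbr (s c) ((hPmem _).2 ⟨c, rfl⟩) with h1 | h1
    · rw [h1, hs1]
    · rw [h1, cls_apply, hs1]
  have hUmem : ∀ u, u ∈ U ↔ ∃ c, br (s c) = u := by
    intro u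
    rw [hU, hPdef, Finset.image_image, Finset.mem_image]
    simp
  have hUcard : U.card = Fintype.card (OddCyc π) := by
    have h1 : U = univ.image (fun c => br (s c)) := by
      rw [hU, hPdef, Finset.image_image]
      rfl
    rw [h1, Finset.card_image_of_injective]
    · exact Finset.card_univ
    · intro c c' h
      apply Subtype.ext
      rw [← hbrc, ← hbrc]
      exact congrArg _ h
  have hfar : ∀ u ∈ U, ∀ v ∈ U, u ≠ v → ¬ Near G (2 * (5 * q)) u v := by
    intro u hu v hv huv hnear
    obtain ⟨c, rfl⟩ := (hUmem u).1 hu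
    obtain ⟨c', rfl⟩ := (hUmem v).1 hv
    have hcc : c ≠ c' := fun h => huv (by rw [h])
    have h3 : ∀ c, Near G 1 (s c) (br (s c)) := by
      intro c
      rcases hbr (s c) ((hPmem _).2 ⟨c, rfl⟩) with h4 | h4
      · rw [h4]; exact near_mono G 0 1 (by norm_num) _ _ rfl
      · rw [h4]; exact hstep _
    apply hs2 c c' hcc
    have h4 := near_trans G 1 (2 * (5 * q)) _ _ _ (h3 c) hnear
    have h5 := near_trans G _ 1 _ _ _ h4 (near_symm G 1 _ _ (h3 c'))
    exact near_mono G _ _ (by omega) _ _ h5
  obtain ⟨τ, hτ⟩ := exists_pairing U (by rw [hUcard]; exact even_oddCyc G hc π)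
  apply pair_of_conn G hc F hF hcutne U B hBF hdeg τ hτ
  -- the criterion
  have key : ∀ X : Finset V, 2 * X.card ≤ Fintype.card V → Conn G X →
      (G.cut X ∩ F).card < 2 * sep U τ X → 5 * sep U τ X ≤ (G.cut X).card + 1 := by
    intro X hX hconn hf
    have h1 := sep_le_card U τ X
    have h2 := hexp X hX
    by_cases h : 2 ≤ (U.filter (fun u => u ∈ X)).card
    · have h3 := far_card' G (5 * q) X hconn (U.filter (fun u => u ∈ X)) (by
        intro u hu
        exact (Finset.mem_filter.1 hu).2) (by
        intro u hu v hv
        exact hfar u (Finset.mem_filter.1 hu).1 v (Finset.mem_filter.1 hv).1) h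
      have hq : 0 < q := by
        by_contra hq0
        have : q = 0 := by omega
        rw [this] at h3 h2
        simp only [mul_zero, zero_add, one_mul, zero_mul] at h3 h2
        omega
      have h4 : q * (5 * (U.filter (fun u => u ∈ X)).card) ≤ q * (G.cut X).card := by
        calc q * (5 * (U.filter (fun u => u ∈ X)).card)
            ≤ (5 * q + 1) * (U.filter (fun u => u ∈ X)).card := by
              have : q * (5 * (U.filter (fun u => u ∈ X)).card) =
                5 * q * (U.filter (fun u => u ∈ X)).card := by ring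
              rw [this]
              exact Nat.mul_le_mul_right _ (by omega)
          _ ≤ X.card := h3
          _ ≤ _ := h2
      have h5 := Nat.le_of_mul_le_mul_left h4 hq
      omega
    · have h3 : sep U τ X ≤ 1 := by omega
      rcases Nat.eq_zero_or_pos (sep U τ X) with h0 | h0
      · omega
      obtain ⟨m, hm⟩ := cut_F_even G F hF X
      have h4 : (G.cut X ∩ F).card = 0 := by omega
      -- X contains an odd circuit
      have h5 : 0 < (U.filter (fun u => u ∈ X)).card := by omega
      obtain ⟨u, hu⟩ := Finset.card_pos.1 h5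
      rw [Finset.mem_filter] at hu
      obtain ⟨c, hcu⟩ := (hUmem u).1 hu.1
      have h6 : vert π {c.1} ⊆ X := by
        have hclosed : ∀ v, v ∈ X → π v ∈ X := by
          intro v hv
          by_contra hcon
          have h7 : ε v ∈ G.cut X ∩ F := by
            rw [Finset.mem_inter]
            refine ⟨?_, hπ.2.1 v⟩
            simp only [cut, Finset.mem_filter, Finset.mem_univ, true_and]
            rcases hπ.2.2.2 v with ⟨h8, h9⟩ | ⟨h8, h9⟩
            · rw [h8, h9]; exact fun h => hcon (h.1 hv)
            · rw [h8, h9]; exact fun h => hcon (h.2 hv)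
          rw [Finset.card_eq_zero.1 h4] at h7
          exact absurd h7 (Finset.notMem_empty _)
        intro w hw
        simp only [vert, Finset.mem_filter, Finset.mem_univ, true_and,
          Finset.mem_singleton] at hw
        have h7 : π.SameCycle u w := by
          rw [← cls_eq, hw, ← hcu, hbrc]
        obtain ⟨i, _, hi⟩ := h7.exists_pow_eq'
        rw [← hi]
        have : ∀ m : ℕ, (π ^ m) u ∈ X := by
          intro m
          induction m with
          | zero => simpa using hu.2
          | succ m ih => rw [pow_succ', Equiv.Perm.mul_apply]; exact hclosed _ ih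
        exact this i
      have h7 := Finset.card_le_card h6
      have h8 := hL' c
      unfold csize at h8
      by_cases hbig : X.card ≤ 4 ^ (10 * q + 5)
      · have h9 := hsmall X hbig
        omega
      have h9 : 4 ^ (10 * q + 3) ≤ q * (G.cut X).card := by
        refine le_trans ?_ h2
        have h11 : 4 ^ (10 * q + 3) ≤ 4 ^ (10 * q + 5) := Nat.pow_le_pow_right (by norm_num) (by omega)
        omega
      have h10 : 4 * q < 4 ^ (10 * q + 3) := by
        have h11 : 10 * q + 3 < 4 ^ (10 * q + 3) := Nat.lt_pow_self (by norm_num)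
        omega
      have h11 : q * 4 < q * (G.cut X).card := by
        calc q * 4 = 4 * q := by ring
          _ < _ := h10
          _ ≤ _ := h9
      have h12 := Nat.lt_of_mul_lt_mul_left h11
      omega
  intro X hX hX' hconn hconn' hf
  by_cases h : 2 * X.card ≤ Fintype.card V
  · exact key X h hconn hf
  · have h6 := Finset.card_compl X
    have h3 := key Xᶜ (by omega) hconn' (by rw [cut_compl, sep_symm U τ hτ]; exact hf)
    rw [cut_compl, sep_symm U τ hτ] at h3
    exact h3

end Pool.Agent.N835.LF
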