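import Pool.Agent.H185E.Expander

/-!
Project LF (helper328): connected sets containing two disjoint circuits (helper835).
-/

set_option autoImplicit false
set_option linter.unusedSectionVars false

namespace Pool.Agent.N835.LF
open Finset Pool.Agent.H160R2.HF Pool.Agent.H160R2.HF.OrGraph Pool.Agent.H884R2.HFP
open Pool.Agent.H185C Pool.Agent.H185D

variable {V E : Type} [Fintype V] [Fintype E] [DecidableEq V] [DecidableEq E]

/-- the number of the edges spanned by `X` -/
def spn (G : OrGraph V E) (X : Finset V) : ℕ :=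
  (univ.filter (fun e => G.t e ∈ X ∧ G.h e ∈ X)).card

theorem spn_cut (G : OrGraph V E) (hc : G.Cubic) (X : Finset V) :
    3 * X.card = 2 * spn G X + (G.cut X).card := by
  have hs := G.handshake univ X
  rw [inter_univ, sum_congr rfl (fun v _ => hc v), sum_const, smul_eq_mul] at hs
  unfold spn
  omega

theorem mem_cut (G : OrGraph V E) (X : Finset V) (e : E) :
    e ∈ G.cut X ↔ ¬ (G.t e ∈ X ↔ G.h e ∈ X) := by
  unfold OrGraph.cut
  simp

/-! ### connected sets -/

theorem conn_union (G : OrGraph V E) {X Y : Finset V} (hX : Conn G X) (hY : Conn G Y) {z : V}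
    (hzX : z ∈ X) (hzY : z ∈ Y) : Conn G (X ∪ Y) := by
  have key : ∀ X Y : Finset V, Conn G X → ∀ W ⊆ X ∪ Y, (X ∩ W).Nonempty → (X \ W).Nonempty →
      ∃ e ∈ G.cut W, G.t e ∈ X ∧ G.h e ∈ X := by
    intro X Y hX W _ h1 h2
    obtain ⟨e, he, h3, h4⟩ := hX (X ∩ W) inter_subset_left h1 (by
      obtain ⟨x, hx⟩ := h2
      rw [mem_sdiff] at hx
      exact ⟨x, mem_sdiff.2 ⟨hx.1, fun h => hx.2 (mem_inter.1 h).2⟩⟩)
    refine ⟨e, ?_, h3, h4⟩
    rw [mem_cut] at he ⊢
    simpa [mem_inter, h3, h4] using he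
  intro W hW hne hne'
  by_cases hz : z ∈ W
  · obtain ⟨x, hx⟩ := hne'
    rw [mem_sdiff, mem_union] at hx
    rcases hx.1 with h | h
    · obtain ⟨e, h1, h2, h3⟩ := key X Y hX W hW ⟨z, mem_inter.2 ⟨hzX, hz⟩⟩
        ⟨x, mem_sdiff.2 ⟨h, hx.2⟩⟩
      exact ⟨e, h1, mem_union_left _ h2, mem_union_left _ h3⟩
    · obtain ⟨e, h1, h2, h3⟩ := key Y X hY W (by rw [union_comm]; exact hW)
        ⟨z, mem_inter.2 ⟨hzY, hz⟩⟩ ⟨x, mem_sdiff.2 ⟨h, hx.2⟩⟩
      exact ⟨e, h1, mem_union_right _ h2, mem_union_right _ h3⟩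
  · obtain ⟨x, hx⟩ := hne
    have hx' := hW hx
    rw [mem_union] at hx'
    rcases hx' with h | h
    · obtain ⟨e, h1, h2, h3⟩ := key X Y hX W hW ⟨x, mem_inter.2 ⟨h, hx⟩⟩
        ⟨z, mem_sdiff.2 ⟨hzX, hz⟩⟩
      exact ⟨e, h1, mem_union_left _ h2, mem_union_left _ h3⟩
    · obtain ⟨e, h1, h2, h3⟩ := key Y X hY W (by rw [union_comm]; exact hW)
        ⟨x, mem_inter.2 ⟨h, hx⟩⟩ ⟨z, mem_sdiff.2 ⟨hzY, hz⟩⟩
      exact ⟨e, h1, mem_union_right _ h2, mem_union_right _ h3⟩

theorem conn_single (G : OrGraph V E) (v : V) : Conn G {v} := by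
  intro W hW hne hne'
  exfalso
  obtain ⟨x, hx⟩ := hne
  obtain ⟨y, hy⟩ := hne'
  have h1 := mem_singleton.1 (hW hx)
  rw [mem_sdiff, mem_singleton] at hy
  apply hy.2
  rw [hy.1, ← h1]
  exact hx

theorem conn_empty (G : OrGraph V E) : Conn G (∅ : Finset V) := by
  intro W hW hne _
  obtain ⟨x, hx⟩ := hne
  exact absurd (hW hx) (notMem_empty x)

theorem conn_pair (G : OrGraph V E) (e : E) : Conn G {G.t e, G.h e} := by
  intro W hW hne hne'
  refine ⟨e, ?_, by simp, by simp⟩
  rw [mem_cut]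
  intro h
  obtain ⟨x, hx⟩ := hne
  obtain ⟨y, hy⟩ := hne'
  have hx' := hW hx
  rw [mem_sdiff] at hy
  simp only [mem_insert, mem_singleton] at hx' hy
  have h1 : G.t e ∈ W := by
    rcases hx' with h2 | h2
    · rw [← h2]; exact hx
    · rw [h, ← h2]; exact hx
  have h2 : G.h e ∈ W := h.1 h1
  rcases hy.1 with h3 | h3
  · exact hy.2 (by rw [h3]; exact h1)
  · exact hy.2 (by rw [h3]; exact h2)

theorem conn_insert (G : OrGraph V E) {X : Finset V} (hX : Conn G X) {e : E} {x w : V} (hx : x ∈ X)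
    (h : (G.t e = x ∧ G.h e = w) ∨ (G.h e = x ∧ G.t e = w)) : Conn G (insert w X) := by
  have h1 : insert w X = X ∪ {G.t e, G.h e} := by
    ext v
    simp only [mem_insert, mem_union, mem_singleton]
    rcases h with ⟨h2, h3⟩ | ⟨h2, h3⟩
    · rw [h2, h3]
      constructor
      · rintro (h4 | h4)
        · exact Or.inr (Or.inr h4)
        · exact Or.inl h4
      · rintro (h4 | h4 | h4)
        · exact Or.inr h4
        · rw [h4]; exact Or.inr hx
        · exact Or.inl h4
    · rw [h2, h3]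
      constructor
      · rintro (h4 | h4)
        · exact Or.inr (Or.inl h4)
        · exact Or.inl h4
      · rintro (h4 | h4 | h4)
        · exact Or.inr h4
        · exact Or.inl h4
        · rw [h4]; exact Or.inr hx
  rw [h1]
  refine conn_union G hX (conn_pair G e) hx ?_
  rcases h with ⟨h2, _⟩ | ⟨h2, _⟩
  · rw [← h2]; simp
  · rw [← h2]; simp

/-- short walks give small connected sets -/
theorem near_conn (G : OrGraph V E) (r : ℕ) : ∀ u v : V, Near G r u v →
    ∃ P : Finset V, u ∈ P ∧ v ∈ P ∧ Conn G P ∧ P.card ≤ r + 1 := by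
  induction r with
  | zero =>
    intro u v h
    have h1 : u = v := h
    subst h1
    exact ⟨{u}, by simp, by simp, conn_single G u, by simp⟩
  | succ r ih =>
    intro u v h
    rcases h with h | ⟨e, ⟨h1, h2⟩ | ⟨h1, h2⟩⟩
    · obtain ⟨P, h1, h2, h3, h4⟩ := ih u v h
      exact ⟨P, h1, h2, h3, by omega⟩
    · obtain ⟨P, h3, h4, h5, h6⟩ := ih u _ h1
      refine ⟨insert v P, mem_insert_of_mem h3, mem_insert_self _ _,
        conn_insert G h5 (e := e) h4 (Or.inl ⟨rfl, h2⟩), ?_⟩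
      exact (card_insert_le _ _).trans (by omega)
    · obtain ⟨P, h3, h4, h5, h6⟩ := ih u _ h1
      refine ⟨insert v P, mem_insert_of_mem h3, mem_insert_self _ _,
        conn_insert G h5 (e := e) h4 (Or.inr ⟨rfl, h2⟩), ?_⟩
      exact (card_insert_le _ _).trans (by omega)

/-- the outer end of an edge leaving `W` -/
theorem outer (G : OrGraph V E) {W Z : Finset V} {e : E} (he : e ∈ G.cut W) (ht : G.t e ∈ Z)
    (hh : G.h e ∈ Z) : ∃ x w, x ∈ W ∧ w ∉ W ∧ w ∈ Z ∧
      ((G.t e = x ∧ G.h e = w) ∨ (G.h e = x ∧ G.t e = w)) := by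
  rw [mem_cut] at he
  by_cases h1 : G.t e ∈ W
  · exact ⟨G.t e, G.h e, h1, fun h2 => he ⟨fun _ => h2, fun _ => h1⟩, hh, Or.inl ⟨rfl, rfl⟩⟩
  · have h2 : G.h e ∈ W := by
      by_contra h2
      exact he ⟨fun h => absurd h h1, fun h => absurd h h2⟩
    exact ⟨G.h e, G.t e, h2, h1, ht, Or.inr ⟨rfl, rfl⟩⟩

/-- connected sets have connected parts of every size -/
theorem conn_sub (G : OrGraph V E) {X : Finset V} (hX : Conn G X) (n : ℕ) (hn : n ≤ X.card) :
    ∃ Y ⊆ X, Y.card = n ∧ Conn G Y := by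
  induction n with
  | zero => exact ⟨∅, empty_subset _, card_empty, conn_empty G⟩
  | succ n ih =>
    obtain ⟨Y, h1, h2, h3⟩ := ih (by omega)
    rcases Nat.eq_zero_or_pos n with h0 | h0
    · obtain ⟨v, hv⟩ := card_pos.1 (show 0 < X.card by omega)
      exact ⟨{v}, by simpa using hv, by rw [h0]; simp, conn_single G v⟩
    · have h4 : (X \ Y).Nonempty := by
        rw [← card_pos, card_sdiff_of_subset h1]
        omega
      obtain ⟨e, he, hte, hhe⟩ := hX Y h1 (card_pos.1 (by omega)) h4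
      obtain ⟨x, w, hx, hw, hwX, hxw⟩ := outer G he hte hhe
      exact ⟨insert w Y, insert_subset hwX h1, by rw [card_insert_of_notMem hw, h2],
        conn_insert G h3 hx hxw⟩

/-! ### rich sets -/

theorem spn_union (G : OrGraph V E) {A B : Finset V} (hd : Disjoint A B) {e : E} {x w : V}
    (hx : x ∈ A) (hw : w ∈ B) (h : (G.t e = x ∧ G.h e = w) ∨ (G.h e = x ∧ G.t e = w)) :
    spn G A + spn G B + 1 ≤ spn G (A ∪ B) := by
  have hd' : ∀ v, v ∈ A → v ∉ B := fun v h1 h2 => disjoint_left.1 hd h1 h2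
  set SA := univ.filter (fun e => G.t e ∈ A ∧ G.h e ∈ A) with hSA
  set SB := univ.filter (fun e => G.t e ∈ B ∧ G.h e ∈ B) with hSB
  have hAB : Disjoint SA SB := by
    rw [disjoint_left]
    intro f hf hf'
    rw [hSA, mem_filter] at hf
    rw [hSB, mem_filter] at hf'
    exact hd' _ hf.2.1 hf'.2.1
  have heA : e ∉ SA ∪ SB := by
    intro he
    rw [mem_union, hSA, hSB, mem_filter, mem_filter] at he
    rcases h with ⟨h1, h2⟩ | ⟨h1, h2⟩
    · rw [h1, h2] at he
      rcases he with he | he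
      · exact hd' _ he.2.2 hw
      · exact hd' _ hx he.2.1
    · rw [h1, h2] at he
      rcases he with he | he
      · exact hd' _ he.2.1 hw
      · exact hd' _ hx he.2.2
  have hsub : insert e (SA ∪ SB) ⊆ univ.filter (fun e => G.t e ∈ A ∪ B ∧ G.h e ∈ A ∪ B) := by
    intro f hf
    rw [mem_insert, mem_union, hSA, hSB, mem_filter, mem_filter] at hf
    rw [mem_filter]
    refine ⟨mem_univ _, ?_⟩
    rcases hf with rfl | hf | hf
    · rcases h with ⟨h1, h2⟩ | ⟨h1, h2⟩
      · rw [h1, h2]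
        exact ⟨mem_union_left _ hx, mem_union_right _ hw⟩
      · rw [h1, h2]
        exact ⟨mem_union_right _ hw, mem_union_left _ hx⟩
    · exact ⟨mem_union_left _ hf.2.1, mem_union_left _ hf.2.2⟩
    · exact ⟨mem_union_right _ hf.2.1, mem_union_right _ hf.2.2⟩
  have hcard := card_le_card hsub
  rw [card_insert_of_notMem heA, card_union_of_disjoint hAB] at hcard
  exact hcard

/-- a connected set containing two disjoint sets spanning circuits spans more edges than it has
vertices -/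
theorem rich2 (G : OrGraph V E) {Z A B : Finset V} (hZ : Conn G Z) (hAZ : A ⊆ Z) (hBZ : B ⊆ Z)
    (hA : A.Nonempty) (hB : B.Nonempty) (hd : Disjoint A B) (h1 : A.card ≤ spn G A)
    (h2 : B.card ≤ spn G B) : Z.card + 1 ≤ spn G Z := by
  classical
  let Q : Finset V → Prop := fun W => W.Nonempty ∧
    ((Disjoint W B ∧ W.card ≤ spn G W) ∨ W.card + 1 ≤ spn G W)
  obtain ⟨W, hW, hmax⟩ := exists_max_image (Z.powerset.filter Q) (fun W => W.card)
    ⟨A, mem_filter.2 ⟨mem_powerset.2 hAZ, hA, Or.inl ⟨hd, h1⟩⟩⟩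
  rw [mem_filter, mem_powerset] at hW
  obtain ⟨hWZ, hWne, hQ⟩ := hW
  by_cases hWeq : W = Z
  · subst hWeq
    rcases hQ with ⟨h3, _⟩ | h3
    · obtain ⟨b, hb⟩ := hB
      exact absurd hb (disjoint_left.1 h3 (hBZ hb))
    · exact h3
  · exfalso
    have hne : (Z \ W).Nonempty := by
      rw [sdiff_nonempty]
      exact fun h => hWeq (Subset.antisymm hWZ h)
    obtain ⟨e, he, hte, hhe⟩ := hZ W hWZ hWne hne
    obtain ⟨x, w, hx, hw, hwZ, hxw⟩ := outer G he hte hhe
    have hcontra : ∀ W' : Finset V, W' ⊆ Z → Q W' → W.card < W'.card → False := by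
      intro W' h3 h4 h5
      have := hmax W' (mem_filter.2 ⟨mem_powerset.2 h3, h4⟩)
      omega
    by_cases hB' : Disjoint W B ∧ w ∈ B
    · obtain ⟨hWB, hwB⟩ := hB'
      refine hcontra (W ∪ B) (union_subset hWZ hBZ) ⟨hWne.mono subset_union_left, Or.inr ?_⟩ ?_
      · have h3 := spn_union G hWB hx hwB hxw
        have h4 : W.card ≤ spn G W := by
          rcases hQ with ⟨_, h5⟩ | h5
          · exact h5
          · omega
        rw [card_union_of_disjoint hWB]
        omega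
      · rw [card_union_of_disjoint hWB]
        have := hB.card_pos
        omega
    · have hdis : Disjoint W {w} := disjoint_singleton_right.2 hw
      have h3 := spn_union G hdis hx (mem_singleton_self w) hxw
      have h5 : (W ∪ {w}).card = W.card + 1 := by
        rw [card_union_of_disjoint hdis, card_singleton]
      refine hcontra (W ∪ {w}) (union_subset hWZ (singleton_subset_iff.2 hwZ))
        ⟨hWne.mono subset_union_left, ?_⟩ (by omega)
      rcases hQ with ⟨h6, h7⟩ | h6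
      · left
        refine ⟨?_, by omega⟩
        rw [disjoint_union_left]
        refine ⟨h6, disjoint_singleton_left.2 fun h8 => hB' ⟨h6, h8⟩⟩
      · right
        omega

/-! ### circuits -/

theorem mem_vert (π : Equiv.Perm V) (c : Cyc π) (v : V) : v ∈ vert π {c} ↔ cls π v = c := by
  simp [vert]

theorem conn_vert (G : OrGraph V E) (F : Finset E) (π : Equiv.Perm V) (ε : V → E)
    (hπ : IsPerm G F π ε) (c : Cyc π) : Conn G (vert π {c}) := by
  intro W hW hne hne'
  obtain ⟨w, hw, hw'⟩ : ∃ w ∈ W, π w ∉ W := by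
    by_contra hcon
    push Not at hcon
    obtain ⟨x, hx⟩ := hne
    obtain ⟨y, hy⟩ := hne'
    rw [mem_sdiff, mem_vert] at hy
    have h1 : cls π x = cls π y := by
      rw [hy.1]
      exact (mem_vert π c x).1 (hW hx)
    rw [cls_eq] at h1
    obtain ⟨i, _, hi⟩ := h1.exists_pow_eq'
    apply hy.2
    rw [← hi]
    have : ∀ m : ℕ, (π ^ m) x ∈ W := by
      intro m
      induction m with
      | zero => simpa using hx
      | succ m ih => rw [pow_succ', Equiv.Perm.mul_apply]; exact hcon _ ih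
    exact this i
  have h1 : cls π w = c := (mem_vert π c w).1 (hW hw)
  have h2 : cls π (π w) = c := by rw [cls_apply, h1]
  refine ⟨ε w, ?_, ?_, ?_⟩
  · rw [mem_cut]
    rcases hπ.2.2.2 w with ⟨h3, h4⟩ | ⟨h3, h4⟩
    · rw [h3, h4]; exact fun h => hw' (h.1 hw)
    · rw [h3, h4]; exact fun h => hw' (h.2 hw)
  · rw [mem_vert]
    rcases hπ.2.2.2 w with ⟨h3, h4⟩ | ⟨h3, h4⟩
    · rw [h3]; exact h1
    · rw [h3]; exact h2
  · rw [mem_vert]
    rcases hπ.2.2.2 w with ⟨h3, h4⟩ | ⟨h3, h4⟩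
    · rw [h4]; exact h2
    · rw [h4]; exact h1

theorem spn_vert (G : OrGraph V E) (F : Finset E) (π : Equiv.Perm V) (ε : V → E)
    (hπ : IsPerm G F π ε) (c : Cyc π) : (vert π {c}).card ≤ spn G (vert π {c}) := by
  rw [← card_image_of_injective (vert π {c}) hπ.1]
  refine card_le_card fun e he => ?_
  obtain ⟨w, hw, rfl⟩ := mem_image.1 he
  have h1 : cls π w = c := (mem_vert π c w).1 hw
  have h2 : cls π (π w) = c := by rw [cls_apply, h1]
  rw [mem_filter, mem_vert, mem_vert]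
  refine ⟨mem_univ _, ?_⟩
  rcases hπ.2.2.2 w with ⟨h3, h4⟩ | ⟨h3, h4⟩
  · rw [h3, h4]; exact ⟨h1, h2⟩
  · rw [h3, h4]; exact ⟨h2, h1⟩

theorem vert_disj (π : Equiv.Perm V) {c c' : Cyc π} (h : c ≠ c') :
    Disjoint (vert π {c}) (vert π {c'}) := by
  rw [disjoint_left]
  intro v hv hv'
  rw [mem_vert] at hv hv'
  exact h (hv.symm.trans hv')

/-- no small connected set contains two circuits -/
theorem no_two (G : OrGraph V E) (hc : G.Cubic) (k : ℕ)
    (hsmall : ∀ X : Finset V, X.card ≤ k → X.card ≤ (G.cut X).card + 1) (F : Finset E)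
    (π : Equiv.Perm V) (ε : V → E) (hπ : IsPerm G F π ε) {Z : Finset V} (hZ : Conn G Z)
    (hk : Z.card ≤ k) {u u' : V} (hne : cls π u ≠ cls π u') (h1 : vert π {cls π u} ⊆ Z)
    (h2 : vert π {cls π u'} ⊆ Z) : False := by
  have h3 := rich2 G hZ h1 h2 ⟨u, (mem_vert π _ u).2 rfl⟩ ⟨u', (mem_vert π _ u').2 rfl⟩
    (vert_disj π hne) (spn_vert G F π ε hπ _) (spn_vert G F π ε hπ _)
  have h4 := spn_cut G hc Z
  have h5 := hsmall Z hk
  omega

end Pool.Agent.N835.LF
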